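import Mathlib

set_option autoImplicit false

namespace Pool.Agent.Results.MP_f322fd_al.Descent

open Polynomial

/-- reduction of the constant coefficient modulo `2` -/
noncomputable def r0 : ℤ[X] →+* ZMod 2 := (Int.castRingHom (ZMod 2)).comp (evalRingHom 0)

/-- the prime ideal `(2, X)` of `ℤ[X]` -/
noncomputable def P : Ideal ℤ[X] := RingHom.ker r0

instance : P.IsPrime := RingHom.ker_isPrime r0

/-- the regular local ring `ℤ[y]_{(2, y)}` -/
abbrev A : Type := Localization.AtPrime P

lemma mem_P {f : ℤ[X]} : f ∈ P ↔ Even (f.coeff 0) := by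
  unfold P r0
  rw [RingHom.mem_ker, RingHom.comp_apply, coe_evalRingHom, ← coeff_zero_eq_eval_zero]
  exact ZMod.intCast_eq_zero_iff_even

lemma A_reg : IsRegularLocalRing A := inferInstance

/-- `ℤ[X] → ℤ[√2]`, `X ↦ 2√2` -/
noncomputable def ph : ℤ[X] →+* ℤ√2 := eval₂RingHom (Int.castRingHom (ℤ√2)) ⟨0, 2⟩

lemma ph_par (f : ℤ[X]) : Even (ph f).im ∧ (Even (ph f).re ↔ Even (f.coeff 0)) := by
  have h : ph f = ph (divX f) * ⟨0, 2⟩ + ((f.coeff 0 : ℤ) : ℤ√2) := by
    conv_lhs => rw [← divX_mul_X_add f]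
    rw [map_add, map_mul]
    congr 1
    · simp [ph]
    · simp [ph]
  rw [h]
  constructor
  · refine ⟨(ph (divX f)).re, ?_⟩
    simp
    ring
  · have : (ph (divX f) * ⟨0, 2⟩ + ((f.coeff 0 : ℤ) : ℤ√2)).re =
      2 * (2 * (ph (divX f)).im) + f.coeff 0 := by
      simp
      ring
    rw [this, Int.even_add]
    simp

lemma two_ns : ∀ n : ℤ, (2 : ℤ) ≠ n * n := by
  intro n h
  rcases le_or_gt n 1 with h1 | h1
  · rcases le_or_gt n (-2) with h2 | h2
    · nlinarith
    · interval_cases n <;> simp at h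
  · nlinarith

/-- the embedding `ℤ[√2] → ℝ` -/
noncomputable def tr : ℤ√2 →+* ℝ := Zsqrtd.toReal (by norm_num)

lemma tr_inj : Function.Injective tr := Zsqrtd.toReal_injective (by norm_num) (fun n => two_ns n)

lemma tr_s : tr ⟨0, 1⟩ = √2 := by
  simp [tr]

lemma tr_ne {s : ℤ[X]} (hs : s ∉ P) : tr (ph s) ≠ 0 := by
  intro h
  have h1 : ph s = 0 := tr_inj (by rw [h, map_zero])
  apply hs
  rw [mem_P, ← (ph_par s).2, h1]
  simp

/-- `A → ℝ`, `y ↦ 2√2` -/
noncomputable def psA : A →+* ℝ := IsLocalization.lift (M := P.primeCompl) (g := tr.comp ph)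
  (fun s => isUnit_iff_ne_zero.2 (tr_ne s.2))

lemma psA_alg (f : ℤ[X]) : psA (algebraMap ℤ[X] A f) = tr (ph f) := by
  unfold psA
  rw [IsLocalization.lift_eq]
  rfl

/-- the element `y` -/
noncomputable def y : A := algebraMap ℤ[X] A X

lemma psA_y : psA y = 2 * √2 := by
  unfold y
  rw [psA_alg]
  have : ph X = 2 * ⟨0, 1⟩ := by
    simp [ph]
    rfl
  rw [this, map_mul, tr_s, map_ofNat]

/-- the ring `A[θ]/(θ² - yθ + 2)` -/
abbrev B : Type := QuadraticAlgebra A (-2) y

/-- `B → ℝ`, `θ ↦ √2` -/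
noncomputable def psB : B →+* ℝ where
  toFun z := psA z.re + psA z.im * √2
  map_one' := by
    show psA (1 : A) + psA (0 : A) * √2 = 1
    simp
  map_zero' := by
    show psA (0 : A) + psA (0 : A) * √2 = 0
    simp
  map_add' := by
    intro z w
    show psA (z.re + w.re) + psA (z.im + w.im) * √2 = _
    rw [map_add, map_add]
    ring
  map_mul' := by
    intro z w
    have h : √2 * √2 = (2 : ℝ) := Real.mul_self_sqrt (by norm_num)
    rw [QuadraticAlgebra.re_mul, QuadraticAlgebra.im_mul]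
    simp only [map_add, map_mul, map_neg, map_ofNat, psA_y]
    linear_combination (psA z.im * psA w.im) * h

lemma psB_apply (z : B) : psB z = psA z.re + psA z.im * √2 := rfl

/-- the element `θ` -/
noncomputable def th : B := ⟨0, 1⟩

lemma psB_th : psB th = √2 := by
  rw [psB_apply]
  show psA 0 + psA 1 * √2 = √2
  simp

lemma psB_alg (a : A) : psB (algebraMap A B a) = psA a := by
  rw [psB_apply]
  show psA a + psA 0 * √2 = psA a
  simp

/-- the prime ideal of `A` (it is generated by `y² - 8`) -/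
noncomputable def p : Ideal A := RingHom.ker psA

instance : p.IsPrime := RingHom.ker_isPrime psA

/-- the prime ideal of `B` (it is generated by `y - 2θ`) -/
noncomputable def q : Ideal B := RingHom.ker psB

instance : q.IsPrime := RingHom.ker_isPrime psB

/-- the generator of `q` -/
noncomputable def g : B := ⟨y, -2⟩

lemma g_sq : g * g = algebraMap A B (y ^ 2 - 8) := by
  have h : algebraMap A B (y ^ 2 - 8) = (⟨y ^ 2 - 8, 0⟩ : B) := rfl
  rw [h]
  ext1
  · rw [QuadraticAlgebra.re_mul]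
    show y * y + (-2) * (-2) * (-2) = y ^ 2 - 8
    ring
  · rw [QuadraticAlgebra.im_mul]
    show y * (-2) + (-2) * y + y * (-2) * (-2) = 0
    ring

lemma p_mem : y ^ 2 - 8 ∈ p := by
  show psA (y ^ 2 - 8) = 0
  have h : √2 ^ 2 = (2 : ℝ) := Real.sq_sqrt (by norm_num)
  rw [map_sub, map_pow, psA_y, map_ofNat, mul_pow, h]
  norm_num

/-- `q` is generated by `g` -/
lemma q_le : q ≤ Ideal.span {g} := by
  intro z hz
  -- clear denominators
  obtain ⟨⟨f1, s1⟩, h1⟩ := IsLocalization.surj P.primeCompl z.re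
  obtain ⟨⟨f2, s2⟩, h2⟩ := IsLocalization.surj P.primeCompl z.im
  dsimp only at h1 h2
  let w : A := algebraMap ℤ[X] A (s1 * s2 : ℤ[X])
  have hw : IsUnit w := IsLocalization.map_units A (s1 * s2)
  have hwz : algebraMap A B w * z = algebraMap A B (algebraMap ℤ[X] A (f1 * s2)) +
      algebraMap A B (algebraMap ℤ[X] A (f2 * s1)) * th := by
    have e : ∀ a : A, algebraMap A B a = (⟨a, 0⟩ : B) := fun a => rfl
    rw [e, e, e]
    ext1
    · rw [QuadraticAlgebra.re_mul, QuadraticAlgebra.re_add, QuadraticAlgebra.re_mul]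
      show w * z.re + (-2) * 0 * z.im = algebraMap ℤ[X] A (f1 * s2) +
        (algebraMap ℤ[X] A (f2 * s1) * 0 + (-2) * 0 * 1)
      simp only [w, map_mul]
      rw [← h1]
      ring
    · rw [QuadraticAlgebra.im_mul, QuadraticAlgebra.im_add, QuadraticAlgebra.im_mul]
      show w * z.im + 0 * z.re + y * 0 * z.im = 0 +
        (algebraMap ℤ[X] A (f2 * s1) * 1 + 0 * 0 + y * 0 * 1)
      simp only [w, map_mul]
      rw [← h2]
      ring
  -- the quotient ring
  let E := B ⧸ Ideal.span {g}
  let m : B →+* E := Ideal.Quotient.mk (Ideal.span {g})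
  have hg0 : m g = 0 := Ideal.Quotient.eq_zero_iff_mem.2 (Ideal.mem_span_singleton_self g)
  have hyth : m (algebraMap A B y) = 2 * m th := by
    have : g = algebraMap A B y - 2 * th := by
      have e : algebraMap A B y = (⟨y, 0⟩ : B) := rfl
      have e2 : (2 : B) * th = ⟨0, 2⟩ := by
        rw [two_mul]
        ext1
        · show (0 : A) + 0 = 0
          ring
        · show (1 : A) + 1 = 2
          ring
      rw [e, e2]
      ext1
      · show y = y - 0
        ring
      · show -2 = 0 - (2 : A)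
        ring
    have hg1 := congrArg m this
    rw [hg0, map_sub, map_mul, map_ofNat] at hg1
    exact sub_eq_zero.1 hg1.symm
  have hth : m th * m th = 2 := by
    have h3 : th * th = algebraMap A B y * th - 2 := by
      have e : algebraMap A B y = (⟨y, 0⟩ : B) := rfl
      have e2 : (2 : B) = ⟨2, 0⟩ := rfl
      rw [e, e2]
      ext1
      · rw [QuadraticAlgebra.re_mul, QuadraticAlgebra.re_sub, QuadraticAlgebra.re_mul]
        show (0 : A) * 0 + (-2) * 1 * 1 = (y * 0 + (-2) * 0 * 1) - 2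
        ring
      · rw [QuadraticAlgebra.im_mul, QuadraticAlgebra.im_sub, QuadraticAlgebra.im_mul]
        show (0 : A) * 1 + 1 * 0 + y * 1 * 1 = (y * 1 + 0 * 0 + y * 0 * 1) - 0
        ring
    have h4 := congrArg m h3
    rw [map_mul, map_sub, map_mul, hyth, map_ofNat] at h4
    linear_combination -h4
  let la : ℤ√2 →+* E := Zsqrtd.lift ⟨m th, by rw [hth]; norm_num⟩
  have hla : ∀ f : ℤ[X], m (algebraMap A B (algebraMap ℤ[X] A f)) = la (ph f) := by
    intro f
    have : ((m.comp (algebraMap A B)).comp (algebraMap ℤ[X] A)) = la.comp ph := by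
      apply Polynomial.ringHom_ext
      · intro a
        simp
      · show m (algebraMap A B y) = la (ph X)
        rw [hyth]
        have : ph X = ⟨0, 2⟩ := by simp [ph]
        rw [this]
        simp [la, Zsqrtd.lift]
    exact congrArg (fun r : ℤ[X] →+* E => r f) this
  have h3 : psB (algebraMap A B w * z) = 0 := by
    rw [map_mul, show psB z = 0 from hz, mul_zero]
  rw [hwz, map_add psB, map_mul psB, psB_alg, psB_alg, psB_th, psA_alg, psA_alg, ← tr_s,
    ← map_mul tr, ← map_add tr] at h3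
  have h4 : ph (f1 * s2) + ph (f2 * s1) * ⟨0, 1⟩ = 0 := tr_inj (by rw [h3, map_zero])
  have h5 : m (algebraMap A B w * z) = 0 := by
    rw [hwz, map_add m, map_mul m, hla, hla]
    have : m th = la ⟨0, 1⟩ := by simp [la, Zsqrtd.lift]
    rw [this, ← map_mul la, ← map_add la, h4, map_zero]
  have h6 : algebraMap A B w * z ∈ Ideal.span {g} := Ideal.Quotient.eq_zero_iff_mem.1 h5
  exact (Ideal.unit_mul_mem_iff_mem _ (hw.map (algebraMap A B))).1 h6

lemma rad_eq : (p.map (algebraMap A B)).radical = q := by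
  apply le_antisymm
  · have h1 : p.map (algebraMap A B) ≤ q := by
      rw [Ideal.map_le_iff_le_comap]
      intro a ha
      show psB (algebraMap A B a) = 0
      rw [psB_alg]
      exact ha
    exact (Ideal.radical_mono h1).trans (Ideal.IsPrime.radical (inferInstance : q.IsPrime)).le
  · intro z hz
    obtain ⟨c, hc⟩ := Ideal.mem_span_singleton'.1 (q_le hz)
    refine ⟨2, ?_⟩
    rw [← hc]
    have : (c * g) ^ 2 = c ^ 2 * (g * g) := by ring
    rw [this, g_sq]
    exact Ideal.mul_mem_left _ _ (Ideal.mem_map_of_mem _ p_mem)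

lemma A_le : ringKrullDim A = ((IsLocalRing.maximalIdeal A).spanFinrank : WithBot ℕ∞) :=
  A_reg.spanFinrank_maximalIdeal.symm

lemma mem_mA {a : A} : a ∈ IsLocalRing.maximalIdeal A ↔ ∃ b c : A, a = 2 * b + y * c := by
  constructor
  · intro ha
    obtain ⟨f, s, rfl⟩ := IsLocalization.exists_mk'_eq P.primeCompl a
    rw [IsLocalization.AtPrime.mk'_mem_maximal_iff A P, mem_P] at ha
    obtain ⟨k, hk⟩ := ha
    have hf : f = 2 * C k + X * divX f := by
      conv_lhs => rw [← divX_mul_X_add f, hk]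
      rw [C_add]
      ring
    obtain ⟨u, hu⟩ := IsLocalization.map_units A s
    refine ⟨algebraMap ℤ[X] A (C k) * (u⁻¹ : Aˣ), algebraMap ℤ[X] A (divX f) * (u⁻¹ : Aˣ), ?_⟩
    rw [IsLocalization.mk'_eq_iff_eq_mul, ← hu]
    have h2 : (2 * (algebraMap ℤ[X] A (C k) * (u⁻¹ : Aˣ)) +
      y * (algebraMap ℤ[X] A (divX f) * (u⁻¹ : Aˣ))) * (u : A) =
      2 * algebraMap ℤ[X] A (C k) + y * algebraMap ℤ[X] A (divX f) := by
      have h3 : ((u⁻¹ : Aˣ) : A) * u = 1 := Units.inv_mul u
      linear_combination (2 * algebraMap ℤ[X] A (C k) + y * algebraMap ℤ[X] A (divX f)) * h3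
    rw [h2]
    conv_lhs => rw [hf]
    simp only [map_add, map_mul, map_ofNat]
    rfl
  · rintro ⟨b, c, rfl⟩
    have h2 : (2 : A) ∈ IsLocalRing.maximalIdeal A := by
      have : (2 : A) = algebraMap ℤ[X] A 2 := (map_ofNat _ 2).symm
      rw [this, IsLocalization.AtPrime.to_map_mem_maximal_iff A P, mem_P]
      simp
    have hy : y ∈ IsLocalRing.maximalIdeal A := by
      unfold y
      rw [IsLocalization.AtPrime.to_map_mem_maximal_iff A P, mem_P]
      simp
    exact Ideal.add_mem _ (Ideal.mul_mem_right _ _ h2) (Ideal.mul_mem_right _ _ hy)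

lemma two_mem : (2 : A) ∈ IsLocalRing.maximalIdeal A := mem_mA.2 ⟨1, 0, by ring⟩

lemma y_mem : y ∈ IsLocalRing.maximalIdeal A := mem_mA.2 ⟨0, 1, by ring⟩

/-- no element of `A` is sent to `√2` -/
lemma no_sqrt (w : A) : psA w ≠ √2 := by
  intro h
  obtain ⟨f, s, rfl⟩ := IsLocalization.exists_mk'_eq P.primeCompl w
  have h1 : IsLocalization.mk' A f s * algebraMap ℤ[X] A s = algebraMap ℤ[X] A f :=
    IsLocalization.mk'_spec _ _ _
  have h2 := congrArg psA h1
  rw [map_mul, h, psA_alg, psA_alg, ← tr_s, ← map_mul] at h2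
  have h3 := tr_inj h2
  have h4 := congrArg Zsqrtd.im h3
  have h5 : (⟨0, 1⟩ * ph (s : ℤ[X]) : ℤ√2).im = (ph (s : ℤ[X])).re := by simp
  rw [h5] at h4
  have h6 := (ph_par f).1
  rw [← h4, (ph_par _).2, ← mem_P] at h6
  exact s.2 h6

/-- no element of `A` is sent to `1/√2` -/
lemma no_inv (w : A) : psA w * √2 ≠ 1 := by
  intro h
  have h1 : (2 * w ^ 2 - 1) ∈ p := by
    show psA (2 * w ^ 2 - 1) = 0
    have h2 : √2 ^ 2 = (2 : ℝ) := Real.sq_sqrt (by norm_num)
    simp only [map_sub, map_mul, map_pow, map_ofNat, map_one]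
    have h3 : (psA w * √2) ^ 2 = 1 := by rw [h]; norm_num
    rw [mul_pow, h2] at h3
    linarith
  have h2 : (2 * w ^ 2 - 1) ∈ IsLocalRing.maximalIdeal A :=
    IsLocalRing.le_maximalIdeal (Ideal.IsPrime.ne_top (inferInstance : p.IsPrime)) h1
  have h3 : (1 : A) ∈ IsLocalRing.maximalIdeal A := by
    have : (1 : A) = 2 * w ^ 2 - (2 * w ^ 2 - 1) := by ring
    rw [this]
    exact Ideal.sub_mem _ (Ideal.mul_mem_right _ _ two_mem) h2
  exact (Ideal.ne_top_iff_one _).1 (Ideal.IsPrime.ne_top (IsLocalRing.maximalIdeal.isMaximal A).isPrime) h3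

lemma A_two : ringKrullDim A ≤ 2 := by
  rw [A_le]
  have h : IsLocalRing.maximalIdeal A = Ideal.span {2, y} := by
    ext a
    rw [mem_mA, Ideal.mem_span_pair]
    constructor
    · rintro ⟨b, c, rfl⟩
      exact ⟨b, c, by ring⟩
    · rintro ⟨b, c, rfl⟩
      exact ⟨b, c, by ring⟩
  have h2 : (IsLocalRing.maximalIdeal A).spanFinrank ≤ 2 := by
    rw [h]
    refine (Submodule.spanFinrank_span_le_ncard_of_finite (Set.toFinite _)).trans ?_
    refine (Set.ncard_insert_le _ _).trans ?_
    rw [Set.ncard_singleton]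
  exact_mod_cast h2

lemma D_not : ¬ IsRegularLocalRing (A ⧸ p) := by
  intro hreg
  have hloc : IsLocalRing (A ⧸ p) := hreg.toIsLocalRing
  have h1 := hreg.spanFinrank_maximalIdeal
  have h0 : (y ^ 2 - 8 : A) ≠ 0 := by
    intro h
    have h2 : algebraMap ℤ[X] A (X ^ 2 - 8) = 0 := by
      rw [map_sub, map_pow, map_ofNat]; exact h
    have h3 : (X ^ 2 - 8 : ℤ[X]) = 0 :=
      (IsLocalization.injective A P.primeCompl_le_nonZeroDivisors) (by rw [h2, map_zero])
    have h4 := congrArg (fun f => coeff f 2) h3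
    simp at h4
  have h2 : ringKrullDim (A ⧸ Ideal.span {(y ^ 2 - 8 : A)}) + 1 ≤ ringKrullDim A :=
    ringKrullDim_quotient_succ_le_of_nonZeroDivisor (mem_nonZeroDivisors_of_ne_zero h0)
  have h3 : ringKrullDim (A ⧸ p) ≤ ringKrullDim (A ⧸ Ideal.span {(y ^ 2 - 8 : A)}) := by
    have hle : Ideal.span {(y ^ 2 - 8 : A)} ≤ p := by
      rw [Ideal.span_singleton_le_iff_mem]; exact p_mem
    exact ringKrullDim_le_of_surjective (Ideal.Quotient.factor hle)
      (Ideal.Quotient.factor_surjective hle)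
  have h4 : ((IsLocalRing.maximalIdeal (A ⧸ p)).spanFinrank : WithBot ℕ∞) + 1 ≤ 2 := by
    rw [h1]
    exact ((add_le_add_left h3 1).trans h2).trans A_two
  have h5 : (IsLocalRing.maximalIdeal (A ⧸ p)).spanFinrank ≤ 1 := by
    have : (IsLocalRing.maximalIdeal (A ⧸ p)).spanFinrank + 1 ≤ 2 := by exact_mod_cast h4
    omega
  have h5' := le_of_eq_of_le
    (IsLocalRing.spanFinrank_maximalIdeal_eq_finrank_cotangentSpace (R := A ⧸ p)).symm h5
  have hval : ValuationRing (A ⧸ p) :=
    ((tfae_of_isNoetherianRing_of_isLocalRing_of_isDomain (A ⧸ p)).out 5 1).1 h5'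
  have hpre : PreValuationRing (A ⧸ p) := hval.toPreValuationRing
  obtain ⟨c, hc⟩ := hpre.cond' (Ideal.Quotient.mk p 2) (Ideal.Quotient.mk p y)
  obtain ⟨c, rfl⟩ := Ideal.Quotient.mk_surjective c
  have hsq : √2 ^ 2 = (2 : ℝ) := Real.sq_sqrt (by norm_num)
  have hpos : (0 : ℝ) < √2 := Real.sqrt_pos.2 (by norm_num)
  rcases hc with hc | hc
  · rw [← map_mul, Ideal.Quotient.eq] at hc
    have h6 : psA (2 * c - y) = 0 := hc
    rw [map_sub, map_mul, psA_y, map_ofNat] at h6
    exact no_sqrt c (by linarith)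
  · rw [← map_mul, Ideal.Quotient.eq] at hc
    have h6 : psA (y * c - 2) = 0 := hc
    rw [map_sub, map_mul, psA_y, map_ofNat] at h6
    exact no_inv c (by linarith)

instance : IsNoetherianRing B := IsNoetherianRing.of_finite A B

lemma B_unit (z : B) : IsUnit z ↔ IsUnit z.re := by
  have h2 : ∀ a : A, a ∈ IsLocalRing.maximalIdeal A ↔ ¬ IsUnit a := fun a =>
    (IsLocalRing.mem_maximalIdeal a)
  constructor
  · intro h
    obtain ⟨w, hw⟩ := h.exists_right_inv
    have h1 := congrArg QuadraticAlgebra.re hw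
    rw [QuadraticAlgebra.re_mul] at h1
    change z.re * w.re + (-2) * z.im * w.im = 1 at h1
    by_contra hn
    rw [← h2] at hn
    have h3 : (1 : A) ∈ IsLocalRing.maximalIdeal A := by
      rw [← h1]
      refine Ideal.add_mem _ (Ideal.mul_mem_right _ _ hn) ?_
      have : (-2 : A) * z.im * w.im = 2 * (-(z.im * w.im)) := by ring
      rw [this]
      exact Ideal.mul_mem_right _ _ two_mem
    exact (h2 1).1 h3 isUnit_one
  · intro h
    -- the norm is a unit
    have hN : IsUnit (z.re ^ 2 + y * z.re * z.im + 2 * z.im ^ 2) := by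
      by_contra hn
      rw [← h2] at hn
      have h3 : z.re ^ 2 ∈ IsLocalRing.maximalIdeal A := by
        have e : z.re ^ 2 = (z.re ^ 2 + y * z.re * z.im + 2 * z.im ^ 2) -
          (y * (z.re * z.im) + 2 * z.im ^ 2) := by ring
        rw [e]
        exact Ideal.sub_mem _ hn (Ideal.add_mem _ (Ideal.mul_mem_right _ _ y_mem)
          (Ideal.mul_mem_right _ _ two_mem))
      exact (h2 _).1 h3 (h.pow 2)
    obtain ⟨u, hu⟩ := hN
    have h3 : z * (⟨z.re + y * z.im, -z.im⟩ : B) = algebraMap A B (u : A) := by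
      have e : algebraMap A B (u : A) = (⟨u, 0⟩ : B) := rfl
      rw [e, hu]
      ext1
      · rw [QuadraticAlgebra.re_mul]
        show z.re * (z.re + y * z.im) + (-2) * z.im * (-z.im) = _
        ring
      · rw [QuadraticAlgebra.im_mul]
        show z.re * (-z.im) + z.im * (z.re + y * z.im) + y * z.im * (-z.im) = 0
        ring
    have h4 : IsUnit (z * (⟨z.re + y * z.im, -z.im⟩ : B)) := by
      rw [h3]
      exact u.isUnit.map _
    exact isUnit_of_mul_isUnit_left h4

instance : Nontrivial B := ⟨⟨0, 1, fun h => zero_ne_one (congrArg QuadraticAlgebra.re h)⟩⟩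

instance B_loc : IsLocalRing B := by
  apply IsLocalRing.of_nonunits_add
  intro a b ha hb
  rw [mem_nonunits_iff, B_unit, ← mem_nonunits_iff] at ha hb ⊢
  exact IsLocalRing.nonunits_add ha hb

lemma mem_mB {z : B} : z ∈ IsLocalRing.maximalIdeal B ↔ z.re ∈ IsLocalRing.maximalIdeal A := by
  rw [IsLocalRing.mem_maximalIdeal, IsLocalRing.mem_maximalIdeal, mem_nonunits_iff,
    mem_nonunits_iff, B_unit]

lemma mem_mB' {z : B} : z ∈ IsLocalRing.maximalIdeal B ↔
    ∃ b c : B, z = algebraMap A B y * b + th * c := by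
  constructor
  · intro h
    rw [mem_mB, mem_mA] at h
    obtain ⟨b, c, hbc⟩ := h
    refine ⟨⟨c, b⟩, ⟨z.im, -b⟩, ?_⟩
    have e : algebraMap A B y = (⟨y, 0⟩ : B) := rfl
    rw [e]
    ext1
    · rw [QuadraticAlgebra.re_add, QuadraticAlgebra.re_mul, QuadraticAlgebra.re_mul]
      show z.re = (y * c + (-2) * 0 * b) + (0 * z.im + (-2) * 1 * (-b))
      rw [hbc]
      ring
    · rw [QuadraticAlgebra.im_add, QuadraticAlgebra.im_mul, QuadraticAlgebra.im_mul]
      show z.im = (y * b + 0 * c + y * 0 * b) + (0 * (-b) + 1 * z.im + y * 1 * (-b))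
      ring
  · rintro ⟨b, c, rfl⟩
    refine Ideal.add_mem _ (Ideal.mul_mem_right _ _ ?_) (Ideal.mul_mem_right _ _ ?_)
    · rw [mem_mB]; exact y_mem
    · rw [mem_mB]; exact Ideal.zero_mem _

lemma alg_inj : Function.Injective (algebraMap A B) := by
  intro a b h
  exact congrArg QuadraticAlgebra.re h

lemma y8_ne : (y ^ 2 - 8 : A) ≠ 0 := by
  intro h
  have h2 : algebraMap ℤ[X] A (X ^ 2 - 8) = 0 := by
    rw [map_sub, map_pow, map_ofNat]; exact h
  have h3 : (X ^ 2 - 8 : ℤ[X]) = 0 :=
    (IsLocalization.injective A P.primeCompl_le_nonZeroDivisors) (by rw [h2, map_zero])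
  have h4 := congrArg (fun f => coeff f 2) h3
  simp at h4

lemma B_dim : 2 ≤ ringKrullDim B := by
  have hint : Algebra.IsIntegral A B := inferInstance
  have hmax : (IsLocalRing.maximalIdeal A).IsPrime := (IsLocalRing.maximalIdeal.isMaximal A).isPrime
  obtain ⟨Q0, -, hQ0, hc0⟩ := Ideal.exists_ideal_over_prime_of_isIntegral (⊥ : Ideal A)
    (⊥ : Ideal B) (by
      intro a ha
      exact alg_inj (by rw [map_zero]; exact ha))
  obtain ⟨Q1, h01, hQ1, hc1⟩ := Ideal.exists_ideal_over_prime_of_isIntegral p Q0 (by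
    rw [hc0]; exact bot_le)
  obtain ⟨Q2, h12, hQ2, hc2⟩ := Ideal.exists_ideal_over_prime_of_isIntegral
    (IsLocalRing.maximalIdeal A) Q1 (by
    rw [hc1]; exact IsLocalRing.le_maximalIdeal (Ideal.IsPrime.ne_top inferInstance))
  have l01 : (⟨Q0, hQ0⟩ : PrimeSpectrum B) < ⟨Q1, hQ1⟩ := by
    refine lt_of_le_of_ne h01 (fun h => ?_)
    have h1 : Q0 = Q1 := congrArg PrimeSpectrum.asIdeal h
    have h2 : p = ⊥ := by rw [← hc1, ← h1, hc0]
    have h3 := p_mem
    rw [h2] at h3
    exact y8_ne h3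
  have l12 : (⟨Q1, hQ1⟩ : PrimeSpectrum B) < ⟨Q2, hQ2⟩ := by
    refine lt_of_le_of_ne h12 (fun h => ?_)
    have h1 : Q1 = Q2 := congrArg PrimeSpectrum.asIdeal h
    have h2 : p = IsLocalRing.maximalIdeal A := by rw [← hc1, h1, hc2]
    have h3 : (2 : A) ∈ p := by rw [h2]; exact two_mem
    have h4 : psA 2 = 0 := h3
    rw [map_ofNat] at h4
    norm_num at h4
  let s : LTSeries (PrimeSpectrum B) :=
    { length := 2
      toFun := ![⟨Q0, hQ0⟩, ⟨Q1, hQ1⟩, ⟨Q2, hQ2⟩]
      step := by
        intro i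
        fin_cases i
        · exact l01
        · exact l12 }
  exact Order.LTSeries.length_le_krullDim s

lemma B_reg : IsRegularLocalRing B := by
  apply IsRegularLocalRing.of_spanFinrank_maximalIdeal_le
  have h : IsLocalRing.maximalIdeal B = Ideal.span {algebraMap A B y, th} := by
    ext a
    rw [mem_mB', Ideal.mem_span_pair]
    constructor
    · rintro ⟨b, c, rfl⟩
      exact ⟨b, c, by ring⟩
    · rintro ⟨b, c, rfl⟩
      exact ⟨b, c, by ring⟩
  have h2 : (IsLocalRing.maximalIdeal B).spanFinrank ≤ 2 := by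
    rw [h]
    refine (Submodule.spanFinrank_span_le_ncard_of_finite (Set.toFinite _)).trans ?_
    refine (Set.ncard_insert_le _ _).trans ?_
    rw [Set.ncard_singleton]
  refine le_trans ?_ B_dim
  exact_mod_cast h2

lemma C_reg : IsRegularLocalRing (B ⧸ q) := by
  have hloc : IsLocalRing (B ⧸ q) :=
    IsLocalRing.of_surjective' (Ideal.Quotient.mk q) Ideal.Quotient.mk_surjective
  have hg : g ∈ q := by
    show psB g = 0
    rw [psB_apply]
    show psA y + psA (-2) * √2 = 0
    rw [psA_y, map_neg, map_ofNat]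
    ring
  have hg0 : Ideal.Quotient.mk q g = 0 := Ideal.Quotient.eq_zero_iff_mem.2 hg
  have hgy : g = algebraMap A B y - 2 * th := by
    have e : algebraMap A B y = (⟨y, 0⟩ : B) := rfl
    have e2 : (2 : B) * th = ⟨0, 2⟩ := by
      rw [two_mul]
      ext1
      · show (0 : A) + 0 = 0
        ring
      · show (1 : A) + 1 = 2
        ring
    rw [e, e2]
    ext1
    · show y = y - 0
      ring
    · show -2 = 0 - (2 : A)
      ring
  have hmy : Ideal.Quotient.mk q (algebraMap A B y) = 2 * Ideal.Quotient.mk q th := by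
    have h1 := congrArg (Ideal.Quotient.mk q) hgy
    rw [hg0, map_sub, map_mul, map_ofNat] at h1
    exact sub_eq_zero.1 h1.symm
  have hprin : (IsLocalRing.maximalIdeal (B ⧸ q)).IsPrincipal := by
    refine ⟨⟨Ideal.Quotient.mk q th, ?_⟩⟩
    apply le_antisymm
    · intro x hx
      obtain ⟨z, rfl⟩ := Ideal.Quotient.mk_surjective x
      have hz : z ∈ IsLocalRing.maximalIdeal B := by
        rw [IsLocalRing.mem_maximalIdeal, mem_nonunits_iff] at hx ⊢
        exact fun h => hx (h.map _)
      obtain ⟨b, c, rfl⟩ := mem_mB'.1 hz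
      rw [Submodule.mem_span_singleton]
      refine ⟨Ideal.Quotient.mk q (2 * b + c), ?_⟩
      rw [smul_eq_mul, map_add, map_add, map_mul, map_mul, map_mul, hmy, map_ofNat]
      ring
    · rw [Submodule.span_singleton_le_iff_mem, IsLocalRing.mem_maximalIdeal, mem_nonunits_iff]
      intro hu
      obtain ⟨w, hw⟩ := hu.exists_right_inv
      obtain ⟨w, rfl⟩ := Ideal.Quotient.mk_surjective w
      rw [← map_mul, ← map_one (Ideal.Quotient.mk q), Ideal.Quotient.eq] at hw
      have h1 : th * w - 1 ∈ IsLocalRing.maximalIdeal B :=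
        IsLocalRing.le_maximalIdeal (Ideal.IsPrime.ne_top inferInstance) hw
      have h2 : th * w ∈ IsLocalRing.maximalIdeal B :=
        mem_mB'.2 ⟨0, w, by ring⟩
      have h3 : (1 : B) ∈ IsLocalRing.maximalIdeal B := by
        have : (1 : B) = th * w - (th * w - 1) := by ring
        rw [this]
        exact Ideal.sub_mem _ h2 h1
      rw [IsLocalRing.mem_maximalIdeal] at h3
      exact h3 isUnit_one
  have hpid : IsPrincipalIdealRing (B ⧸ q) :=
    ((tfae_of_isNoetherianRing_of_isLocalRing_of_isDomain (B ⧸ q)).out 4 0).1 hprin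
  infer_instance

/-- There is an injective finite homomorphism `A → B` of regular local rings of characteristic
zero and a prime ideal `p` of `A` such that `B / √(pB)` is regular but `A / p` is not. -/
theorem result : ∃ (A B : Type) (_ : CommRing A) (_ : CommRing B) (_ : Algebra A B) (p : Ideal A),
    IsRegularLocalRing A ∧ IsRegularLocalRing B ∧ CharZero A ∧ CharZero B ∧
    Function.Injective (algebraMap A B) ∧ Module.Finite A B ∧ p.IsPrime ∧
    IsRegularLocalRing (B ⧸ (p.map (algebraMap A B)).radical) ∧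
    ¬ IsRegularLocalRing (A ⧸ p) := by
  refine ⟨A, B, inferInstance, inferInstance, inferInstance, p, A_reg, B_reg, ?_, ?_, alg_inj,
    inferInstance, inferInstance, ?_, D_not⟩
  · refine ⟨fun m n h => ?_⟩
    have := congrArg psA h
    rw [map_natCast, map_natCast] at this
    exact_mod_cast this
  · refine ⟨fun m n h => ?_⟩
    have := congrArg psB h
    rw [map_natCast, map_natCast] at this
    exact_mod_cast this
  · rw [rad_eq]
    exact C_reg

end Pool.Agent.Results.MP_f322fd_al.Descent
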